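import Mathlib
import Pool.Agent.R332.Forest

/-!
# Almost all unions of at least two rotated triangular lattices are dense forests
-/

open MeasureTheory

namespace Pool.Agent.Results.MP_e7d22a_nt.AlmostAll

/-- `2 π` is positive (needed for the Lebesgue measure on `ℝ / 2πℤ`) -/
instance fact_two_pi : Fact (0 < 2 * Real.pi) := ⟨Real.two_pi_pos⟩

/-- the lattice spanned by `1` and `(1 + i √3) / 2` in the plane `ℂ` -/
def Lam : Set ℂ :=
  {z | ∃ a b : ℤ, z = (a : ℂ) + (b : ℂ) * (1 / 2 + (Real.sqrt 3 / 2 : ℝ) * Complex.I)}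

/-- the union of the `k` copies of `Λ`, the `j`-th one rotated by the angle `θ j ∈ ℝ / 2πℤ` and
translated by `x j` -/
def TBG (k : ℕ) (x : Fin k → ℂ) (θ : Fin k → AddCircle (2 * Real.pi)) : Set ℂ :=
  {p | ∃ j : Fin k, ∃ l ∈ Lam, p = ((θ j).toCircle : ℂ) * l + x j}

/-- there is `V : (0, 1) → (0, ∞)` such that for every `ε` in `(0, 1)` every segment of length
`V ε` contains a point at distance at most `ε` from `Y` -/
def IsDenseForest (Y : Set ℂ) : Prop :=
  ∃ V : ℝ → ℝ, ∀ ε : ℝ, 0 < ε → ε < 1 → 0 < V ε ∧ ∀ a b : ℂ, dist a b = V ε →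
    ∃ p ∈ segment ℝ a b, ∃ y ∈ Y, dist p y ≤ ε

theorem lam_eq : Lam = R332.Forest.lat := by
  have hw : (1 / 2 + (Real.sqrt 3 / 2 : ℝ) * Complex.I : ℂ) = R332.Forest.w := by
    apply Complex.ext
    · simp [R332.Forest.w_re]
    · simp [R332.Forest.w_im]
  unfold Lam R332.Forest.lat
  rw [hw]

theorem tbg_eq (k : ℕ) (x : Fin k → ℂ) (θ : Fin k → AddCircle (2 * Real.pi)) :
    TBG k x θ = ⋃ j, R332.Forest.copy ((θ j).toCircle : ℂ) (x j) := by
  ext p
  rw [Set.mem_iUnion]
  unfold TBG R332.Forest.copy
  rw [lam_eq]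
  rfl

theorem forest_iff (Y : Set ℂ) : IsDenseForest Y ↔ R332.Forest.DenseForest Y := by
  constructor
  · rintro ⟨V, hV⟩ ε hε
    have h0 : 0 < min (ε / 2) (1 / 2) := lt_min (by positivity) (by norm_num)
    have h1 : min (ε / 2) (1 / 2) < 1 := lt_of_le_of_lt (min_le_right _ _) (by norm_num)
    obtain ⟨h2, h3⟩ := hV _ h0 h1
    refine ⟨_, h2, fun a b hab => ?_⟩
    obtain ⟨p, hp, y, hy, hpy⟩ := h3 a b hab
    refine ⟨p, hp, y, hy, ?_⟩
    rw [dist_comm]
    have := min_le_left (ε / 2) (1 / 2)
    linarith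
  · intro h
    choose V hV hF using h
    refine ⟨fun ε => if hε : 0 < ε then V ε hε else 1, fun ε hε _ => ?_⟩
    simp only [hε, dif_pos]
    refine ⟨hV ε hε, fun a b hab => ?_⟩
    obtain ⟨p, hp, d, hd, hpd⟩ := hF ε hε a b hab
    exact ⟨p, hp, d, hd, by rw [dist_comm]; exact hpd.le⟩

/-- the parameter space -/
abbrev Par (k : ℕ) : Type := (Fin k → AddCircle (2 * Real.pi)) × (Fin k → ℂ)

theorem uncountable_circle : ¬ (Set.univ : Set (AddCircle (2 * Real.pi))).Countable := by
  intro h
  have h1 : (Set.range ((↑) : Set.Ico (0 : ℝ) (2 * Real.pi) → AddCircle (2 * Real.pi))).Countable :=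
    h.mono (Set.subset_univ _)
  have hinj : Function.Injective
      (fun t : Set.Ico (0 : ℝ) (2 * Real.pi) => ((t : ℝ) : AddCircle (2 * Real.pi))) := by
    intro s t hst
    have h2 := (AddCircle.coe_eq_coe_iff_of_mem_Ico (p := 2 * Real.pi) (a := 0)
      (by rw [zero_add]; exact s.2) (by rw [zero_add]; exact t.2)).1 hst
    exact Subtype.ext h2
  have h3 : (Set.univ : Set (Set.Ico (0 : ℝ) (2 * Real.pi))).Countable := by
    have := Set.countable_of_injective_of_countable_image (s := Set.univ)
      (f := fun t : Set.Ico (0 : ℝ) (2 * Real.pi) => ((t : ℝ) : AddCircle (2 * Real.pi)))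
      hinj.injOn (h.mono (Set.subset_univ _))
    exact this
  rw [Set.countable_univ_iff] at h3
  have h4 : (Set.Ico (0 : ℝ) (2 * Real.pi)).Countable := Set.countable_coe_iff.1 h3
  exact (Cardinal.Real.Ico_countable_iff.not.2 (not_le.2 Real.two_pi_pos)) h4

theorem inv1 (k : ℕ) :
    (volume : Measure (Fin k → AddCircle (2 * Real.pi))).IsAddLeftInvariant := by
  rw [volume_pi]; infer_instance

theorem inv2 (k : ℕ) : (volume : Measure (Fin k → ℂ)).IsAddLeftInvariant := by
  rw [volume_pi]; infer_instance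

theorem inv3 (k : ℕ) : (volume : Measure (Par k)).IsAddLeftInvariant := by
  have h1 := inv1 k
  have h2 := inv2 k
  rw [Measure.volume_eq_prod]
  exact Measure.prod.instIsAddLeftInvariant

theorem ne3 (k : ℕ) : (volume : Measure (Par k)) ≠ 0 := by
  intro h
  have h1 : (volume : Measure (Par k)) Set.univ = 0 := by rw [h]; rfl
  rw [← Set.univ_prod_univ, Measure.volume_eq_prod, Measure.prod_prod, mul_eq_zero] at h1
  rcases h1 with h1 | h1
  · rw [volume_pi, Measure.measure_univ_eq_zero, ← volume_pi] at h1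
    exact NeZero.ne _ h1
  · rw [volume_pi, Measure.measure_univ_eq_zero, ← volume_pi] at h1
    exact NeZero.ne _ h1

/-- the set where a difference of two angles takes a given value is a null set -/
theorem null_fibre {k : ℕ} (i j : Fin k) (hij : i ≠ j) (β : AddCircle (2 * Real.pi)) :
    volume {c : Par k | c.1 i - c.1 j = β} = 0 := by
  classical
  have hcont : Continuous fun c : Par k => c.1 i - c.1 j :=
    ((continuous_apply i).comp continuous_fst).sub ((continuous_apply j).comp continuous_fst)
  have hm : ∀ β : AddCircle (2 * Real.pi), MeasurableSet {c : Par k | c.1 i - c.1 j = β} :=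
    fun β => (isClosed_singleton.preimage hcont).measurableSet
  have h1 := Measure.countable_meas_pos_of_disjoint_iUnion (μ := (volume : Measure (Par k))) hm
    (by
      intro β γ hne
      refine Set.disjoint_left.2 fun c hb hc => hne ?_
      rw [Set.mem_ofPred_eq] at hb hc
      rw [← hb, ← hc])
  obtain ⟨γ, hγ⟩ : ∃ γ : AddCircle (2 * Real.pi),
      volume {c : Par k | c.1 i - c.1 j = γ} = 0 := by
    by_contra hcon
    push Not at hcon
    apply uncountable_circle
    refine h1.mono fun γ _ => ?_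
    exact pos_iff_ne_zero.2 (hcon γ)
  let g : Par k := (Function.update 0 i (γ - β), 0)
  have hinv := inv3 k
  have h2 := measure_preimage_add (volume : Measure (Par k)) g {c : Par k | c.1 i - c.1 j = γ}
  rw [hγ] at h2
  rw [← h2]
  congr 1
  ext c
  rw [Set.mem_preimage, Set.mem_ofPred_eq, Set.mem_ofPred_eq]
  have e1 : (g + c).1 i = (γ - β) + c.1 i := by simp [g]
  have e2 : (g + c).1 j = c.1 j := by simp [g, Function.update_of_ne hij.symm]
  rw [e1, e2]
  constructor
  · intro h; rw [← h]; abel
  · intro h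
    have : c.1 i - c.1 j = γ - β + c.1 i - c.1 j - (γ - β) := by abel
    rw [this, h]
    abel

theorem result (k : ℕ) :
    (∀ᵐ c : (Fin k → AddCircle (2 * Real.pi)) × (Fin k → ℂ), IsDenseForest (TBG k c.2 c.1)) ↔
      2 ≤ k := by
  constructor
  · intro h
    have hne := ae_neBot.2 (ne3 k)
    obtain ⟨⟨θ, x⟩, hc⟩ := Filter.Eventually.exists (f := ae (volume : Measure (Par k))) h
    by_contra hlt
    rw [forest_iff, tbg_eq] at hc
    dsimp only at hc
    rcases Nat.eq_zero_or_pos k with hk | hk
    · subst hk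
      exact R332.Forest.not_forest 1 norm_one (fun j => ((θ j).toCircle : ℂ)) x 1 one_pos
        (fun i => i.elim0) hc
    · have hk1 : k = 1 := by omega
      subst hk1
      refine R332.Forest.not_forest ((θ 0).toCircle : ℂ) (Circle.norm_coe _)
        (fun j => ((θ j).toCircle : ℂ)) x 1 one_pos
        (fun i => ⟨1, R332.Forest.one_mem, ?_⟩) hc
      have : i = 0 := Subsingleton.elim _ _
      subst this
      simp
  · intro hk
    let i : Fin k := ⟨0, by omega⟩
    let j : Fin k := ⟨1, by omega⟩
    have hij : i ≠ j := by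
      intro h
      have := congrArg Fin.val h
      simp [i, j] at this
    -- the countable set of bad differences
    let B : Set (AddCircle (2 * Real.pi)) :=
      {β | R332.Forest.Rational2 ((β.toCircle : Circle) : ℂ)}
    have hB : B.Countable := by
      have hinj : Function.Injective fun β : AddCircle (2 * Real.pi) => ((β.toCircle : Circle) : ℂ) :=
        Subtype.val_injective.comp (AddCircle.injective_toCircle Real.two_pi_pos.ne')
      refine Set.countable_of_injective_of_countable_image (s := B) hinj.injOn ?_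
      refine R332.Forest.rational2_countable.mono ?_
      rintro _ ⟨β, hβ, rfl⟩
      exact ⟨Circle.norm_coe _, hβ⟩
    have hnull : volume (⋃ β ∈ B, {c : Par k | c.1 i - c.1 j = β}) = 0 :=
      (measure_biUnion_null_iff hB).2 fun β _ => null_fibre i j hij β
    have hae := measure_eq_zero_iff_ae_notMem.1 hnull
    filter_upwards [hae] with c hc
    rw [forest_iff, tbg_eq]
    refine R332.Forest.forest_of_two ((c.1 i).toCircle : ℂ) ((c.1 j).toCircle : ℂ) (c.2 i) (c.2 j)
      (Circle.norm_coe _) (Circle.norm_coe _) ?_ _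
      (Set.subset_iUnion (fun j => R332.Forest.copy ((c.1 j).toCircle : ℂ) (c.2 j)) i)
      (Set.subset_iUnion (fun j => R332.Forest.copy ((c.1 j).toCircle : ℂ) (c.2 j)) j)
    intro hr
    apply hc
    refine Set.mem_biUnion (x := c.1 i - c.1 j) ?_ rfl
    show R332.Forest.Rational2 (((c.1 i - c.1 j).toCircle : Circle) : ℂ)
    rw [sub_eq_add_neg, AddCircle.toCircle_add, AddCircle.toCircle_neg, Circle.coe_mul,
      Circle.coe_inv, ← div_eq_mul_inv]
    exact hr

end Pool.Agent.Results.MP_e7d22a_nt.AlmostAll
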